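import Pool.Agent.TH253.GS.Main

/-!
# Gyárfás–Sumner for graphs which are stable locally at most edges
-/

set_option autoImplicit false

namespace Pool.Agent.Q128.GS

open Pool.Agent.H367R3 Pool.Agent.TH253.GS

/-- a half-graph contains the half-graphs of smaller order -/
theorem HG.mono {V : Type} {R : V → V → Prop} {n N : ℕ} (hn : n ≤ N) (h : HG R N) : HG R n := by
  obtain ⟨a, b, hab⟩ := h
  refine ⟨fun i => a (Fin.castLE hn i), fun j => b (Fin.castLE hn j), fun i j => ?_⟩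
  rw [hab]
  exact Iff.rfl

/-- a half-graph of order `2 n` contains a complete bipartite graph `K_{n,n}` -/
theorem HG.complete {V : Type} {R : V → V → Prop} {n : ℕ} (h : HG R (2 * n)) :
    ∃ a b : Fin n → V, Function.Injective a ∧ Function.Injective b ∧ ∀ i j, R (a i) (b j) := by
  obtain ⟨a, b, hab⟩ := h
  have ha : ∀ i j, a i = a j → i ≤ j := by
    intro i j hij
    exact (hab i j).1 (hij ▸ (hab j j).2 le_rfl)
  have hb : ∀ i j, b i = b j → i ≤ j := by
    intro i j hij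
    exact (hab i j).1 (hij ▸ (hab i i).2 le_rfl)
  refine ⟨fun i => a ⟨i.1, by omega⟩, fun j => b ⟨n + j.1, by omega⟩, ?_, ?_, fun i j => ?_⟩
  · intro i j hij
    have h1 := ha _ _ hij
    have h2 := ha _ _ hij.symm
    rw [Fin.le_def] at h1 h2
    exact Fin.ext (le_antisymm h1 h2)
  · intro i j hij
    have h1 := hb _ _ hij
    have h2 := hb _ _ hij.symm
    rw [Fin.le_def] at h1 h2
    simp only at h1 h2
    exact Fin.ext (by omega)
  · rw [hab, Fin.le_def]
    show i.1 ≤ n + j.1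
    omega

/-- a half-graph of order `2 n + 1` contains an empty bipartite graph of order `n` -/
theorem HG.empty {V : Type} {R : V → V → Prop} {n : ℕ} (h : HG R (2 * n)) :
    ∃ a b : Fin n → V, Function.Injective a ∧ Function.Injective b ∧ ∀ i j, ¬ R (a i) (b j) := by
  obtain ⟨a, b, hab⟩ := h
  have ha : ∀ i j, a i = a j → i ≤ j := by
    intro i j hij
    exact (hab i j).1 (hij ▸ (hab j j).2 le_rfl)
  have hb : ∀ i j, b i = b j → i ≤ j := by
    intro i j hij
    exact (hab i j).1 (hij ▸ (hab i i).2 le_rfl)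
  refine ⟨fun i => a ⟨n + i.1, by omega⟩, fun j => b ⟨j.1, by omega⟩, ?_, ?_, fun i j => ?_⟩
  · intro i j hij
    have h1 := ha _ _ hij
    have h2 := ha _ _ hij.symm
    rw [Fin.le_def] at h1 h2
    simp only at h1 h2
    exact Fin.ext (by omega)
  · intro i j hij
    have h1 := hb _ _ hij
    have h2 := hb _ _ hij.symm
    rw [Fin.le_def] at h1 h2
    exact Fin.ext (le_antisymm h1 h2)
  · rw [hab, Fin.le_def]
    show ¬ n + i.1 ≤ j.1
    omega

/-- Boolean combinations of stable relations, locally at the edges that are not exceptional -/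
theorem main_local (m s n : ℕ) (F : SimpleGraph (Fin m)) (hF : F.IsAcyclic) :
    ∃ f : ℕ → ℕ, ∀ (V : Type) [Fintype V] (G P : SimpleGraph V) (c : ℕ), P.Colorable c →
      (∀ x y, G.Adj x y → ¬ P.Adj x y →
        ∃ (R : Fin s → V → V → Prop) (φ : (Fin s → Prop) → Prop), (∀ t, ¬ HG (R t) n) ∧
        ∀ u v, G.Adj y u → G.Adj x v → u ≠ v → ¬ P.Adj u v →
          (G.Adj u v ↔ φ fun t => R t u v)) →
      ¬ Nonempty (F ↪g G) → G.chromaticNumber ≤ (c * f G.cliqueNum : ℕ) := by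
  obtain ⟨N, hN⟩ := boolean_stable.{0} (s + 2) (n + 2)
  obtain ⟨f, hf⟩ := main_classes m F hF fun _ => N + 1
  refine ⟨f, fun V _ G P c hP hloc hFG => ?_⟩
  obtain ⟨col⟩ := hP
  refine hf V G c col (fun i => ?_) hFG
  rintro ⟨a, b, hab⟩
  have hadj : ∀ j l, G.Adj (a j).1 (b l).1 ↔ j ≤ l := hab
  obtain ⟨R0, φ, hR0, hA⟩ := hloc (a 0).1 (b (Fin.last N)).1 ((hadj _ _).2 (Fin.zero_le _))
    fun h => col.valid h ((a 0).2.trans (b (Fin.last N)).2.symm)
  let W := {v : V // col v = i}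
  let Q1 : W → Prop := fun u => G.Adj (b (Fin.last N)).1 u.1
  let Q2 : W → Prop := fun v => G.Adj (a 0).1 v.1
  let R : Fin (s + 2) → W → W → Prop :=
    Fin.cons (fun u _ => Q1 u) (Fin.cons (fun _ v => Q2 v) fun t u v => R0 t u.1 v.1)
  apply hN W R (fun ψ => ψ 0 ∧ ψ 1 ∧ φ fun t => ψ t.succ.succ)
    (fun u v => Q1 u ∧ Q2 v ∧ G.Adj u.1 v.1)
  · intro t
    refine Fin.cases ?_ (fun t => ?_) t
    · exact unary_left Q1 (by omega)
    · refine Fin.cases ?_ (fun t => ?_) t
      · exact unary_right Q2 (by omega)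
      · rintro ⟨a', b', h'⟩
        have h1 : HG (R0 t) (n + 2) := ⟨fun j => (a' j).1, fun j => (b' j).1, h'⟩
        exact hR0 t (HG.mono (by omega) h1)
  · exact fun v h => G.irrefl h.2.2
  · intro u v huv
    show Q1 u ∧ Q2 v ∧ G.Adj u.1 v.1 ↔ Q1 u ∧ Q2 v ∧ φ fun t => R0 t u.1 v.1
    constructor
    · rintro ⟨h1, h2, h3⟩
      refine ⟨h1, h2, (hA u.1 v.1 h1 h2 (fun h => huv (Subtype.ext h)) fun h => ?_).1 h3⟩
      exact col.valid h (u.2.trans v.2.symm)
    · rintro ⟨h1, h2, h3⟩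
      refine ⟨h1, h2, (hA u.1 v.1 h1 h2 (fun h => huv (Subtype.ext h)) fun h => ?_).2 h3⟩
      exact col.valid h (u.2.trans v.2.symm)
  · refine ⟨fun j => a j.castSucc, fun j => b j.castSucc, fun j l => ?_⟩
    constructor
    · rintro ⟨_, _, h⟩
      exact Fin.castSucc_le_castSucc_iff.1 ((hadj _ _).1 h)
    · intro h
      refine ⟨((hadj _ _).2 (Fin.le_last _)).symm, (hadj _ _).2 (Fin.zero_le _), (hadj _ _).2 ?_⟩
      exact Fin.castSucc_le_castSucc_iff.2 h

end Pool.Agent.Q128.GS
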